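import Pool.Agent.MP_caba0b_al.H43.Iface

/-! The Schur positive version of the Gaussian estimate. -/

namespace Pool.Agent.MP_caba0b_al.H73

open Pool.Agent.MP_caba0b_al.H43 Equiv

lemma nsq_perm {n : ℕ} (ν : Wt n) (π : Perm (Fin n)) : nsq (ν ∘ π) = nsq ν :=
  Equiv.sum_comp π (fun i => (ν i : ℝ) ^ 2)

lemma gaussG_apply (S : Side) (τ : ℝ) (Λ : Finset (Wt S.n)) (ν : Wt S.n) :
    S.gaussG τ Λ ν = if ν ∈ Λ then Real.exp (-(τ * (S.N * nsq ν))) else 0 := by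
  unfold Side.gaussG
  rw [Finsupp.finsetSum_apply]
  simp [Finsupp.single_apply]

lemma sum_re {ι : Type} (F : Finset ι) (x : ι → GaussianInt) :
    (∑ i ∈ F, x i).re = ∑ i ∈ F, (x i).re := by
  classical
  induction F using Finset.induction_on with
  | empty => simp
  | insert a F ha ih => rw [Finset.sum_insert ha, Finset.sum_insert ha, Zsqrtd.re_add, ih]

lemma sum_im {ι : Type} (F : Finset ι) (x : ι → GaussianInt) :
    (∑ i ∈ F, x i).im = ∑ i ∈ F, (x i).im := by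
  classical
  induction F using Finset.induction_on with
  | empty => simp
  | insert a F ha ih => rw [Finset.sum_insert ha, Finset.sum_insert ha, Zsqrtd.im_add, ih]

lemma push_re (S : Side) (ν : Wt S.n) :
    ((S.push ν).re : ℝ) = ∑ i, (ν i : ℝ) * ((S.a i).re : ℝ) := by
  unfold Side.push
  rw [sum_re]
  push_cast
  refine Finset.sum_congr rfl fun i _ => ?_
  simp

lemma push_im (S : Side) (ν : Wt S.n) :
    ((S.push ν).im : ℝ) = ∑ i, (ν i : ℝ) * ((S.a i).im : ℝ) := by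
  unfold Side.push
  rw [sum_im]
  push_cast
  refine Finset.sum_congr rfl fun i _ => ?_
  simp

lemma norm_eq (μ : GaussianInt) : (μ.norm : ℝ) = (μ.re : ℝ) ^ 2 + (μ.im : ℝ) ^ 2 := by
  rw [Zsqrtd.norm_def]
  push_cast
  ring

lemma dom_norm (S : Side) {ν lam : Wt S.n} (h : Dom ν lam) :
    ∃ π : Perm (Fin S.n), ((S.push ν).norm : ℝ) ≤ (S.push (lam ∘ π)).norm := by
  obtain ⟨π, hπ⟩ := h fun i =>
    ((S.push ν).re : ℝ) * (S.a i).re + ((S.push ν).im : ℝ) * (S.a i).im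
  refine ⟨π, ?_⟩
  have key : ∀ μ : Wt S.n, ∑ i, (((S.push ν).re : ℝ) * (S.a i).re +
      ((S.push ν).im : ℝ) * (S.a i).im) * (μ i : ℝ) =
      ((S.push ν).re : ℝ) * (S.push μ).re + ((S.push ν).im : ℝ) * (S.push μ).im := by
    intro μ
    rw [push_re S μ, push_im S μ, Finset.mul_sum, Finset.mul_sum, ← Finset.sum_add_distrib]
    exact Finset.sum_congr rfl fun i _ => by ring
  have h1 := key ν
  have h2 := key (lam ∘ π)
  simp only [Function.comp_apply] at h2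
  rw [h1, h2] at hπ
  rw [norm_eq, norm_eq]
  nlinarith [sq_nonneg (((S.push ν).re : ℝ) - (S.push (lam ∘ π)).re),
    sq_nonneg (((S.push ν).im : ℝ) - (S.push (lam ∘ π)).im)]

lemma wpos (τ : ℝ) : ∀ y : GaussianInt ⊕ ZMod 4,
    0 ≤ Sum.elim (fun μ : GaussianInt => Real.exp (τ * (μ.norm : ℝ))) (fun _ => (1 : ℝ)) y := by
  rintro (y | y)
  · exact (Real.exp_pos _).le
  · exact zero_le_one

lemma nrm_phi (S : Side) {τ : ℝ} (hτ : 0 ≤ τ) (ν : Wt S.n) :
    nrm τ (S.phi ν) ≤ 5 * Real.exp (τ * ((S.push ν).norm : ℝ)) := by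
  unfold nrm Side.phi
  refine (wn_add_le (wpos τ) _ _).trans ?_
  have h1 : 1 ≤ Real.exp (τ * ((S.push ν).norm : ℝ)) := by
    refine Real.one_le_exp (mul_nonneg hτ ?_)
    rw [norm_eq]
    positivity
  have h2 := wn_sum_le (wpos τ) Finset.univ fun c : ZMod 4 =>
    (Finsupp.single (Sum.inr c) ((if S.pb ν = c then 1 else 0) - 1 / 4) : X)
  have h3 : ∑ c : ZMod 4, wn (Sum.elim (fun μ : GaussianInt => Real.exp (τ * (μ.norm : ℝ)))
      fun _ => (1 : ℝ)) (Finsupp.single (Sum.inr c) ((if S.pb ν = c then 1 else 0) - 1 / 4) : X) ≤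
      ∑ _c : ZMod 4, (1 : ℝ) := by
    refine Finset.sum_le_sum fun c _ => ?_
    rw [wn_single]
    split_ifs <;> norm_num [abs_of_nonneg, abs_of_nonpos]
  rw [Finset.sum_const, Finset.card_univ, ZMod.card] at h3
  rw [wn_single]
  simp only [abs_one, Sum.elim_inl, one_mul, nsmul_eq_mul, Nat.cast_ofNat, mul_one] at h3 ⊢
  linarith

lemma card_le {n : ℕ} (F : Finset (Wt n)) {R : ℝ} (hR : 1 ≤ R) (h : ∀ ν ∈ F, nsq ν ≤ R ^ 2) :
    (F.card : ℝ) ≤ (3 * R) ^ n := by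
  have hsub : F ⊆ Fintype.piFinset fun _ => Finset.Icc (-⌊R⌋) ⌊R⌋ := by
    intro ν hν
    rw [Fintype.mem_piFinset]
    intro i
    have h1 : (ν i : ℝ) ^ 2 ≤ R ^ 2 :=
      (Finset.single_le_sum (f := fun i => (ν i : ℝ) ^ 2) (fun _ _ => sq_nonneg _)
        (Finset.mem_univ i)).trans (h ν hν)
    obtain ⟨h2, h3⟩ := abs_le.1 (abs_le_of_sq_le_sq' h1 (by linarith) |> abs_le.2)
    rw [Finset.mem_Icc]
    constructor
    · rw [neg_le, Int.le_floor]
      push_cast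
      linarith
    · exact Int.le_floor.2 h3
  have h1 : (F.card : ℝ) ≤ ((Fintype.piFinset fun _ : Fin n => Finset.Icc (-⌊R⌋) ⌊R⌋).card : ℕ) := by
    exact_mod_cast Finset.card_le_card hsub
  refine h1.trans ?_
  rw [Fintype.card_piFinset, Finset.prod_const, Finset.card_univ, Fintype.card_fin, Int.card_Icc]
  push_cast
  refine pow_le_pow_left₀ (Nat.cast_nonneg _) ?_ _
  have h0 : (0 : ℤ) ≤ ⌊R⌋ := Int.floor_nonneg.2 (by linarith)
  have h2 : (((⌊R⌋ + 1 - -⌊R⌋).toNat : ℤ) : ℝ) = ((⌊R⌋ + 1 - -⌊R⌋ : ℤ) : ℝ) := by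
    rw [Int.toNat_of_nonneg (by linarith)]
  have h3 := Int.floor_le R
  push_cast at h2
  rw [h2]
  linarith

lemma one_sub_exp {t r : ℝ} (hr : 1 ≤ r) (ht : r⁻¹ ≤ t) :
    1 ≤ 2 * r * (1 - Real.exp (-(2 * t))) := by
  have hr0 : 0 < r := by linarith
  have hi : 0 < r⁻¹ := inv_pos.2 hr0
  have h1 : 1 + r⁻¹ ≤ Real.exp (2 * t) := by linarith [Real.add_one_le_exp (2 * t)]
  have h2 : Real.exp (-(2 * t)) * Real.exp (2 * t) = 1 := by rw [← Real.exp_add]; simp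
  have h3 := Real.exp_pos (-(2 * t))
  have h4 : Real.exp (-(2 * t)) * (1 + r⁻¹) ≤ 1 := by nlinarith
  have h5 : r * r⁻¹ = 1 := mul_inv_cancel₀ hr0.ne'
  have h6 : Real.exp (-(2 * t)) * (r + 1) ≤ r := by nlinarith
  nlinarith

lemma expand_gauss {S : Side} (hA : SymA S.n) (hB : SymB S.n) {κ R : ℝ} {P : Finset GaussianInt}
    {Λ F : Finset (Wt S.n)} (h : Adapt S κ R P Λ) (hF : ∀ lam, lam ∈ F ↔ lam ∈ Λ ∧ Monotone lam)
    {s : Wt S.n → Wt S.n →₀ ℝ} (hs : ∀ lam, Monotone lam → IsS lam (s lam)) (τ : ℝ) :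
    S.gaussG τ Λ = ∑ lam ∈ F, adel (S.gaussG τ Λ) (lam + del S.n) • s lam := by
  refine hA.expand s hs _ (fun π ν => ?_) F (fun lam hl => ((hF lam).1 hl).2) fun lam hl hne => ?_
  · rw [gaussG_apply, gaussG_apply, nsq_perm]
    have : ν ∘ π ∈ Λ ↔ ν ∈ Λ := by
      refine ⟨fun hν => ?_, fun hν => h.perm ν hν π⟩
      have h1 := h.perm _ hν π⁻¹
      have h2 : (ν ∘ π) ∘ (π⁻¹ : Perm (Fin S.n)) = ν := by
        funext i
        simp
      rwa [h2] at h1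
    simp only [this]
  · obtain ⟨π, -, hπ⟩ := Finset.exists_ne_zero_of_sum_ne_zero hne
    have h1 : lam + del S.n - del S.n ∘ π ∈ Λ := by
      by_contra hc
      rw [gaussG_apply, if_neg hc, mul_zero] at hπ
      exact hπ rfl
    exact (hF lam).2 ⟨h.dom _ h1 lam (hB.dom lam π hl).1, hl⟩

lemma err_one {S : Side} (hA : SymA S.n) {κ R τ : ℝ} (hτ : 0 ≤ τ) {P : Finset GaussianInt}
    {Λ : Finset (Wt S.n)} (h : Adapt S κ R P Λ) {lam : Wt S.n} (hl : lam ∈ Λ) (hm : Monotone lam)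
    {s : Wt S.n →₀ ℝ} (hs : IsS lam s) :
    nrm τ ((adel (fun ν => Real.exp (-(τ * (S.N * nsq ν)))) (lam + del S.n) -
      adel (S.gaussG τ Λ) (lam + del S.n)) • S.Phi s) ≤
      (S.n.factorial : ℝ) * (5 * Real.exp (-(τ * (κ * R))) * wn (fun _ => 1) s) := by
  have hw : ∀ w : Perm (Fin S.n), nrm τ ((((Perm.sign w : ℤ) : ℝ) *
      (Real.exp (-(τ * (S.N * nsq (lam + del S.n - del S.n ∘ w)))) -
        S.gaussG τ Λ (lam + del S.n - del S.n ∘ w))) • S.Phi s) ≤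
      5 * Real.exp (-(τ * (κ * R))) * wn (fun _ => 1) s := by
    intro w
    have hn : 0 ≤ wn (fun _ => (1 : ℝ)) s := wn_nonneg (fun _ => zero_le_one) s
    rw [gaussG_apply]
    split_ifs with hc
    · rw [sub_self, mul_zero, zero_smul, nrm, wn_zero]
      positivity
    · have hsg : |((Perm.sign w : ℤ) : ℝ)| = 1 := by
        rcases Int.units_eq_one_or (Perm.sign w) with h1 | h1 <;> simp [h1]
      rw [nrm, wn_smul, sub_zero, abs_mul, hsg, one_mul, abs_of_pos (Real.exp_pos _)]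
      have h1 := wn_lc_le (wpos τ) S.phi s
      refine (mul_le_mul_of_nonneg_left h1 (Real.exp_pos _).le).trans ?_
      rw [← wn_const_mul, ← wn_const_mul]
      refine wn_mono fun ν hν => ?_
      obtain ⟨π, hπ⟩ := dom_norm S (hA.supp lam s hs ν hν)
      have h2 := h.gap lam hl hm w π hc
      refine (mul_le_mul_of_nonneg_left (nrm_phi S hτ ν) (Real.exp_pos _).le).trans ?_
      rw [mul_one, mul_left_comm, ← Real.exp_add]
      refine mul_le_mul_of_nonneg_left (Real.exp_le_exp.2 ?_) (by norm_num)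
      nlinarith
  unfold adel
  rw [← Finset.sum_sub_distrib, Finset.sum_smul]
  refine (wn_sum_le (wpos τ) _ _).trans ?_
  refine (Finset.sum_le_sum fun w _ => ?_).trans_eq
    (by rw [Finset.sum_const, Finset.card_univ, Fintype.card_perm, Fintype.card_fin, nsmul_eq_mul])
  rw [← mul_sub]
  exact hw w

theorem side (hA : ∀ n, SymA n) (hB : ∀ n, SymB n) (hG : GaussStmt) : SideStmt := by
  intro S κ hκ s hs
  obtain ⟨c₀, C₀, e₀, hc₀, hG⟩ := hG S κ hκ
  obtain ⟨C₁, e₁, hC₁⟩ := (hA S.n).size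
  set K : ℝ := 6 ^ S.n * ((S.n.factorial : ℝ) * (5 * (|C₁| * 2 ^ e₁))) with hK
  have hK0 : 0 ≤ K := by positivity
  refine ⟨min c₀ κ, 2 ^ (S.n ^ 2) * |C₀| + |C₀| + K + 1, S.n ^ 2 + e₀ + 2 * S.n + 2 * e₁,
    lt_min hc₀ hκ, by positivity, fun r P Λ F hr h hF => ?_⟩
  obtain ⟨Z, hZ1, hZ2, hZ3⟩ := hG r P Λ hr h
  have hr0 : 0 < r := by linarith
  have hτ : 0 < r⁻¹ := inv_pos.2 hr0
  have hZ0 : 0 < Z := by linarith
  have hN : (1 : ℝ) ≤ S.N := by exact_mod_cast S.hN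
  have hpow : ∀ a : ℕ, a ≤ S.n ^ 2 + e₀ + 2 * S.n + 2 * e₁ →
      r ^ a ≤ r ^ (S.n ^ 2 + e₀ + 2 * S.n + 2 * e₁) := fun a ha => pow_le_pow_right₀ hr ha
  have hC₀ : C₀ * r ^ e₀ ≤ |C₀| * r ^ e₀ :=
    mul_le_mul_of_nonneg_right (le_abs_self _) (by positivity)
  refine ⟨fun lam => Z⁻¹ * adel (fun ν => Real.exp (-(r⁻¹ * (S.N * nsq ν)))) (lam + del S.n),
    fun lam hl => ?_, ?_⟩
  · have h1 := (hB S.n).gauss (r⁻¹ * S.N) lam (by positivity) ((hF lam).1 hl).2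
    simp only [mul_assoc] at h1
    have h2 := one_sub_exp (t := r⁻¹ * S.N) hr (by nlinarith)
    set A := adel (fun ν => Real.exp (-(r⁻¹ * (S.N * nsq ν)))) (lam + del S.n)
    set E := Real.exp (-(r⁻¹ * (S.N * nsq lam)))
    set q := 1 - Real.exp (-(2 * (r⁻¹ * S.N)))
    have hE : 0 < E := Real.exp_pos _
    have hq : 0 < q := by
      by_contra hq
      nlinarith
    have hA0 : 0 ≤ A := le_trans (by positivity) h1
    have h3 : 1 ≤ (2 * r) ^ (S.n ^ 2) * q ^ (S.n ^ 2) := by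
      rw [← mul_pow]
      exact one_le_pow₀ h2
    have h4 : E ≤ (2 * r) ^ (S.n ^ 2) * A := by
      calc E ≤ E * ((2 * r) ^ (S.n ^ 2) * q ^ (S.n ^ 2)) := le_mul_of_one_le_right hE.le h3
        _ = (2 * r) ^ (S.n ^ 2) * (E * q ^ (S.n ^ 2)) := by ring
        _ ≤ _ := mul_le_mul_of_nonneg_left h1 (by positivity)
    have h5 : (2 * r) ^ (S.n ^ 2) * Z ≤
        (2 ^ (S.n ^ 2) * |C₀| + |C₀| + K + 1) * r ^ (S.n ^ 2 + e₀ + 2 * S.n + 2 * e₁) := by
      calc (2 * r) ^ (S.n ^ 2) * Z ≤ (2 * r) ^ (S.n ^ 2) * (|C₀| * r ^ e₀) :=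
            mul_le_mul_of_nonneg_left (hZ2.trans hC₀) (by positivity)
        _ = 2 ^ (S.n ^ 2) * |C₀| * r ^ (S.n ^ 2 + e₀) := by ring
        _ ≤ _ := by
            refine mul_le_mul ?_ (hpow _ (by omega)) (by positivity) (by positivity)
            linarith [abs_nonneg C₀]
    calc E ≤ (2 * r) ^ (S.n ^ 2) * A := h4
      _ = (2 * r) ^ (S.n ^ 2) * Z * (Z⁻¹ * A) := by field_simp
      _ ≤ _ := mul_le_mul_of_nonneg_right h5 (by positivity)
  · have hE := expand_gauss (hA S.n) (hB S.n) h hF hs r⁻¹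
    have hsplit : S.Phi (∑ lam ∈ F, (Z⁻¹ * adel (fun ν => Real.exp (-(r⁻¹ * (S.N * nsq ν))))
        (lam + del S.n)) • s lam) - gaussH r⁻¹ P =
        Z⁻¹ • ∑ lam ∈ F, (adel (fun ν => Real.exp (-(r⁻¹ * (S.N * nsq ν)))) (lam + del S.n) -
          adel (S.gaussG r⁻¹ Λ) (lam + del S.n)) • S.Phi (s lam) +
        (Z⁻¹ • S.Phi (S.gaussG r⁻¹ Λ) - gaussH r⁻¹ P) := by
      have h1 : S.Phi (S.gaussG r⁻¹ Λ) =
          ∑ lam ∈ F, adel (S.gaussG r⁻¹ Λ) (lam + del S.n) • S.Phi (s lam) := by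
        conv_lhs => rw [hE]
        rw [map_sum]
        simp only [map_smul]
      rw [h1, map_sum, ← add_sub_assoc, ← smul_add, ← Finset.sum_add_distrib, Finset.smul_sum]
      congr 1
      refine Finset.sum_congr rfl fun lam _ => ?_
      rw [map_smul, ← add_smul, smul_smul, sub_add_cancel]
    rw [hsplit]
    refine (wn_add_le (wpos _) _ _).trans ?_
    have hR : 1 ≤ 2 * r ^ 2 := by nlinarith
    have hball : ∀ ν ∈ F, nsq ν ≤ (2 * r ^ 2) ^ 2 := by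
      intro ν hν
      have h1 := h.ballL ν ((hF ν).1 hν).1
      have h2 : 0 ≤ nsq ν := Finset.sum_nonneg fun _ _ => sq_nonneg _
      nlinarith
    have hcard := card_le F hR hball
    have hx : r⁻¹ * (κ * r ^ 2) = κ * r := by field_simp
    have h1 : ∀ lam ∈ F, nrm r⁻¹ ((adel (fun ν => Real.exp (-(r⁻¹ * (S.N * nsq ν))))
        (lam + del S.n) - adel (S.gaussG r⁻¹ Λ) (lam + del S.n)) • S.Phi (s lam)) ≤
        (S.n.factorial : ℝ) * (5 * Real.exp (-(κ * r)) * (|C₁| * (2 * r ^ 2) ^ e₁)) := by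
      intro lam hl
      obtain ⟨hl1, hl2⟩ := (hF lam).1 hl
      refine (err_one (hA S.n) hτ.le h hl1 hl2 (hs lam hl2)).trans ?_
      rw [hx]
      gcongr
      exact (hC₁ lam _ _ (hs lam hl2) hR (hball lam hl)).trans
        (mul_le_mul_of_nonneg_right (le_abs_self _) (by positivity))
    have h2 := (wn_sum_le (wpos r⁻¹) _ _).trans (Finset.sum_le_sum h1)
    rw [Finset.sum_const, nsmul_eq_mul] at h2
    have hz : |Z⁻¹| ≤ 1 := by
      rw [abs_of_pos (inv_pos.2 hZ0)]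
      exact inv_le_one_of_one_le₀ hZ1
    rw [wn_smul]
    have h3 := (mul_le_of_le_one_left (wn_nonneg (wpos r⁻¹) _) hz).trans h2
    have e1 : Real.exp (-(κ * r)) ≤ Real.exp (-(min c₀ κ * r)) :=
      Real.exp_le_exp.2 (neg_le_neg (mul_le_mul_of_nonneg_right (min_le_right _ _) hr0.le))
    have e2 : Real.exp (-(c₀ * r)) ≤ Real.exp (-(min c₀ κ * r)) :=
      Real.exp_le_exp.2 (neg_le_neg (mul_le_mul_of_nonneg_right (min_le_left _ _) hr0.le))
    have h4 : (F.card : ℝ) * ((S.n.factorial : ℝ) *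
        (5 * Real.exp (-(κ * r)) * (|C₁| * (2 * r ^ 2) ^ e₁))) ≤
        K * r ^ (S.n ^ 2 + e₀ + 2 * S.n + 2 * e₁) * Real.exp (-(min c₀ κ * r)) := by
      calc _ ≤ (3 * (2 * r ^ 2)) ^ S.n * ((S.n.factorial : ℝ) *
            (5 * Real.exp (-(κ * r)) * (|C₁| * (2 * r ^ 2) ^ e₁))) := by gcongr
        _ = K * r ^ (2 * S.n + 2 * e₁) * Real.exp (-(κ * r)) := by
            rw [hK, show 3 * (2 * r ^ 2) = 6 * r ^ 2 by ring, mul_pow, mul_pow]
            ring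
        _ ≤ _ := by
            refine mul_le_mul ?_ e1 (by positivity) (by positivity)
            exact mul_le_mul_of_nonneg_left (hpow _ (by omega)) hK0
    have h5 : C₀ * r ^ e₀ * Real.exp (-(c₀ * r)) ≤
        |C₀| * r ^ (S.n ^ 2 + e₀ + 2 * S.n + 2 * e₁) * Real.exp (-(min c₀ κ * r)) := by
      refine mul_le_mul (hC₀.trans ?_) e2 (by positivity) (by positivity)
      exact mul_le_mul_of_nonneg_left (hpow _ (by omega)) (abs_nonneg _)
    have h6 : 0 ≤ (2 ^ (S.n ^ 2) * |C₀| + 1) * r ^ (S.n ^ 2 + e₀ + 2 * S.n + 2 * e₁) *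
        Real.exp (-(min c₀ κ * r)) := by positivity
    have h7 := hZ3.trans h5
    unfold nrm at h7
    nlinarith

end Pool.Agent.MP_caba0b_al.H73
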